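import Mathlib
import Pool.Agent.Helper4.QN.Defs
import Pool.Agent.Helper4.QN.St.Stubs

/-! # QN-3: normal form (linear change of variables) -/

set_option autoImplicit false

namespace Pool.Agent.Helper52.QN

open scoped BigOperators RealInnerProductSpace
open Pool.Agent.Helper4.QN

variable {d : ℕ}

/-- the matrix of a map in the standard basis -/
noncomputable def mat (A : EuclideanSpace ℝ (Fin d) →L[ℝ] EuclideanSpace ℝ (Fin d)) :
    Matrix (Fin d) (Fin d) ℝ :=
  LinearMap.toMatrix (EuclideanSpace.basisFun (Fin d) ℝ).toBasis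
    (EuclideanSpace.basisFun (Fin d) ℝ).toBasis (A : EuclideanSpace ℝ (Fin d) →ₗ[ℝ] _)

theorem mat_det (A : EuclideanSpace ℝ (Fin d) →L[ℝ] EuclideanSpace ℝ (Fin d)) :
    (mat A).det = A.det := by
  unfold mat
  rw [LinearMap.det_toMatrix]

theorem mat_mulVec (A : EuclideanSpace ℝ (Fin d) →L[ℝ] EuclideanSpace ℝ (Fin d))
    (x : EuclideanSpace ℝ (Fin d)) : (mat A).mulVec x.ofLp = (A x).ofLp := by
  have h := LinearMap.toMatrix_mulVec_repr (EuclideanSpace.basisFun (Fin d) ℝ).toBasis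
    (EuclideanSpace.basisFun (Fin d) ℝ).toBasis (A : EuclideanSpace ℝ (Fin d) →ₗ[ℝ] _) x
  unfold mat
  have e : ∀ y : EuclideanSpace ℝ (Fin d),
      ((EuclideanSpace.basisFun (Fin d) ℝ).toBasis.repr y : Fin d → ℝ) = y.ofLp := by
    intro y; ext i; simp
  rw [e, e] at h
  exact h

theorem gm_map {m : ℕ} (w : Fin m → ℝ) (v : Fin m → EuclideanSpace ℝ (Fin d))
    (A : EuclideanSpace ℝ (Fin d) →L[ℝ] EuclideanSpace ℝ (Fin d)) :
    gm w (fun j => A (v j)) = mat A * gm w v * (mat A).transpose := by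
  unfold gm
  rw [Matrix.mul_sum, Matrix.sum_mul]
  apply Finset.sum_congr rfl
  intro j _
  rw [Matrix.mul_smul, Matrix.smul_mul, Matrix.mul_vecMulVec, Matrix.vecMulVec_mul,
    Matrix.vecMul_transpose, mat_mulVec]

theorem gm_map_det {m : ℕ} (w : Fin m → ℝ) (v : Fin m → EuclideanSpace ℝ (Fin d))
    (A : EuclideanSpace ℝ (Fin d) →L[ℝ] EuclideanSpace ℝ (Fin d)) :
    (gm w (fun j => A (v j))).det = A.det ^ 2 * (gm w v).det := by
  rw [gm_map, Matrix.det_mul, Matrix.det_mul, Matrix.det_transpose, mat_det]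
  ring

theorem gm_smul {m : ℕ} (w c : Fin m → ℝ) (v : Fin m → EuclideanSpace ℝ (Fin d)) :
    gm w (fun j => c j • v j) = gm (fun j => w j * c j ^ 2) v := by
  unfold gm
  apply Finset.sum_congr rfl
  intro j _
  ext i k
  simp [Matrix.vecMulVec_apply]
  ring

theorem gx_eq {m : ℕ} (s s' : Fin m → ℝ)
    (a u : Fin m → EuclideanSpace ℝ (Fin d))
    (A : EuclideanSpace ℝ (Fin d) →L[ℝ] EuclideanSpace ℝ (Fin d))
    (hu : ∀ j, u j = (s j)⁻¹ • A (a j)) (x : EuclideanSpace ℝ (Fin d))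
    (hs' : ∀ j, s' j = s j * (1 - ⟪u j, x⟫)) :
    (gx u x).det = A.det ^ 2 * (gm (fun j => (s' j ^ 2)⁻¹) a).det := by
  have hu' : u = fun j => (s j)⁻¹ • (fun j => A (a j)) j := funext hu
  unfold gx
  have e : gm (fun j => ((1 - ⟪u j, x⟫) ^ 2)⁻¹) u =
      gm (fun j => ((1 - ⟪u j, x⟫) ^ 2)⁻¹ * (s j)⁻¹ ^ 2) (fun j => A (a j)) := by
    conv_lhs => rw [show gm (fun j => ((1 - ⟪u j, x⟫) ^ 2)⁻¹) u =
      gm (fun j => ((1 - ⟪u j, x⟫) ^ 2)⁻¹) (fun j => (s j)⁻¹ • (fun j => A (a j)) j) from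
        congrArg _ hu']
    rw [gm_smul]
  rw [e, gm_map_det]
  congr 2
  have : (fun j => ((1 - ⟪u j, x⟫) ^ 2)⁻¹ * (s j)⁻¹ ^ 2) = fun j => (s' j ^ 2)⁻¹ := by
    funext j
    rw [hs' j, mul_pow, mul_inv, inv_pow]
    ring
  rw [this]

theorem gx_zero {m : ℕ} (u : Fin m → EuclideanSpace ℝ (Fin d)) :
    gx u 0 = gm (fun _ => 1) u := by
  unfold gx
  congr 1
  funext j
  simp

/-- positivity for other weights -/
theorem gm_pos_of {m : ℕ} (w : Fin m → ℝ) (hw : ∀ j, 0 < w j)
    (v : Fin m → EuclideanSpace ℝ (Fin d)) (h : 0 < (gm (fun j => (w j ^ 2)⁻¹) v).det) :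
    0 < (gm (fun _ => 1) v).det := by
  have e1 : gm (fun j => (w j ^ 2)⁻¹) v = gm (fun _ => 1) (fun j => (w j)⁻¹ • v j) := by
    rw [gm_smul]
    congr 1
    funext j
    rw [inv_pow, one_mul]
  rw [e1] at h
  have h2 := (St.logdet_le (fun j => (w j)⁻¹ • v j) h (fun j => w j ^ 2)
    (fun j => by have := hw j; positivity)).1
  rw [gm_smul] at h2
  have e2 : (fun j => w j ^ 2 * (w j)⁻¹ ^ 2) = fun _ => (1 : ℝ) := by
    funext j
    have := (hw j).ne'
    field_simp
  rw [e2] at h2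
  exact h2

/-- QN-3 (normal form). -/
theorem normal_form {d : ℕ} (hd : 0 < d) {I : Type} [Fintype I]
    (a : I → EuclideanSpace ℝ (Fin d)) (b : I → ℝ) (R : ℝ)
    (hbdd : ∀ x : EuclideanSpace ℝ (Fin d), (∀ i, ⟪a i, x⟫ ≤ b i) → ‖x‖ ≤ R)
    (x₀ : EuclideanSpace ℝ (Fin d)) (hint : ∀ i, ⟪a i, x₀⟫ < b i) (α : ℝ) (hα : 1 < α) :
    ∃ (o : EuclideanSpace ℝ (Fin d))
      (A : EuclideanSpace ℝ (Fin d) →L[ℝ] EuclideanSpace ℝ (Fin d)) (u : I → EuclideanSpace ℝ (Fin d))
      (n : ℕ) (t : Fin n → I),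
      (∀ i, ⟪a i, o⟫ < b i) ∧ 0 < A.det ∧ (∀ i, u i = (b i - ⟪a i, o⟫)⁻¹ • A (a i)) ∧
      (∀ i, ‖u i‖ ≤ 1) ∧ 0 < (gm (fun _ => 1) (fun j => u (t j))).det ∧
      (∀ (x : EuclideanSpace ℝ (Fin d))
        (Q : EuclideanSpace ℝ (Fin d) →L[ℝ] EuclideanSpace ℝ (Fin d)),
        (∀ i, ⟪u i, x⟫ + ‖Q (u i)‖ ≤ 1) → 0 < Q.det →
        Real.log (gm (fun _ => 1) (fun j => u (t j))).det ≤
          Real.log (gx (fun j => u (t j)) x).det - 2 * Real.log Q.det) ∧
      (∀ (n' : ℕ) (t' : Fin n' → I), 0 < (gm (fun _ => 1) (fun j => u (t' j))).det →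
        ∃ (x : EuclideanSpace ℝ (Fin d))
          (Q : EuclideanSpace ℝ (Fin d) →L[ℝ] EuclideanSpace ℝ (Fin d)),
          (∀ i, ⟪u i, x⟫ + ‖Q (u i)‖ ≤ 1) ∧ (∀ i, ⟪u i, x⟫ < 1) ∧ 0 < Q.det ∧
          Real.log (gx (fun j => u (t' j)) x).det - 2 * Real.log Q.det - n' * Real.log α ≤
            Real.log (gm (fun _ => 1) (fun j => u (t j))).det - n * Real.log α) := by
  obtain ⟨n, t, o, A, h1, h2, h3, h4, h5, h6⟩ := St.exists_best hd a b R hbdd x₀ hint α hα
  set s : I → ℝ := fun i => b i - ⟪a i, o⟫ with hsdef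
  have hs : ∀ i, 0 < s i := fun i => by rw [hsdef]; dsimp only; linarith [h3 i]
  set u : I → EuclideanSpace ℝ (Fin d) := fun i => (s i)⁻¹ • A (a i) with hudef
  have hAu : ∀ i, A (a i) = s i • u i := by
    intro i
    rw [hudef]; dsimp only
    rw [smul_smul, mul_inv_cancel₀ (hs i).ne', one_smul]
  have hun : ∀ i, ‖u i‖ ≤ 1 := by
    intro i
    rw [hudef]; dsimp only
    rw [norm_smul, norm_inv, Real.norm_eq_abs, abs_of_pos (hs i), inv_mul_le_iff₀ (hs i), mul_one]
    have := h2 i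
    rw [hsdef]; dsimp only; linarith
  have hA0 : A.det ≠ 0 := h4.ne'
  -- the value at `(o, A)`
  have hval : ∀ (m : ℕ) (τ : Fin m → I) (x o' : EuclideanSpace ℝ (Fin d)),
      (∀ i, b i - ⟪a i, o'⟫ = s i * (1 - ⟪u i, x⟫)) → (∀ i, ⟪u i, x⟫ < 1) →
      0 < (gm (fun _ => 1) (fun j => a (τ j))).det →
      0 < (gx (fun j => u (τ j)) x).det ∧
      Real.log (gx (fun j => u (τ j)) x).det =
        Real.log (gm (fun j => ((b (τ j) - ⟪a (τ j), o'⟫) ^ 2)⁻¹) (fun j => a (τ j))).det +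
          2 * Real.log A.det := by
    intro m τ x o' hss hlt hpos
    have e := gx_eq (fun j => s (τ j)) (fun j => b (τ j) - ⟪a (τ j), o'⟫)
      (fun j => a (τ j)) (fun j => u (τ j)) A (fun j => rfl) x (fun j => hss (τ j))
    have hp := (St.logdet_le (fun j => a (τ j)) hpos
      (fun j => ((b (τ j) - ⟪a (τ j), o'⟫) ^ 2)⁻¹) (fun j => by
        have h7 : 0 < b (τ j) - ⟪a (τ j), o'⟫ := by
          rw [hss]; exact mul_pos (hs _) (by linarith [hlt (τ j)])
        positivity)).1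
    rw [e]
    refine ⟨by positivity, ?_⟩
    rw [Real.log_mul (by positivity) hp.ne', Real.log_pow]
    push_cast; ring
  have hval0 := hval n t 0 o (fun i => by rw [inner_zero_right, sub_zero, mul_one])
    (fun i => by rw [inner_zero_right]; norm_num) h1
  rw [gx_zero] at hval0
  refine ⟨o, A, u, n, t, h3, h4, fun i => rfl, hun, hval0.1, ?_, ?_⟩
  · intro x Q hxQ hQ
    have hlt : ∀ i, ⟪u i, x⟫ < 1 := by
      intro i
      rcases eq_or_ne (u i) 0 with h0 | h0
      · rw [h0, inner_zero_left]; norm_num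
      · have hinj : Q (u i) ≠ 0 := by
          intro hq
          have hker : Q.toLinearMap.ker = ⊥ := by
            apply LinearMap.ker_eq_bot_of_injective
            have hdet : IsUnit (LinearMap.det Q.toLinearMap) := isUnit_iff_ne_zero.mpr hQ.ne'
            exact (LinearEquiv.ofIsUnitDet (f := Q.toLinearMap)
              (v := (EuclideanSpace.basisFun (Fin d) ℝ).toBasis)
              (v' := (EuclideanSpace.basisFun (Fin d) ℝ).toBasis)
              (by rw [LinearMap.det_toMatrix]; exact hdet)).injective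
          apply h0
          have : u i ∈ Q.toLinearMap.ker := by
            rw [LinearMap.mem_ker]; exact hq
          rw [hker] at this
          simpa using this
        have := norm_pos_iff.mpr hinj
        linarith [hxQ i]
    set o' : EuclideanSpace ℝ (Fin d) := o + ContinuousLinearMap.adjoint A x with ho'
    have hin : ∀ i, ⟪a i, o'⟫ = ⟪a i, o⟫ + s i * ⟪u i, x⟫ := by
      intro i
      rw [ho', inner_add_right, ContinuousLinearMap.adjoint_inner_right, hAu, real_inner_smul_left]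
    have hss : ∀ i, b i - ⟪a i, o'⟫ = s i * (1 - ⟪u i, x⟫) := by
      intro i
      rw [hin, hsdef]; dsimp only; ring
    have hfeas : ∀ i, ⟪a i, o'⟫ + ‖(Q.comp A) (a i)‖ ≤ b i := by
      intro i
      rw [ContinuousLinearMap.comp_apply, hAu, map_smul, norm_smul, Real.norm_eq_abs,
        abs_of_pos (hs i), hin]
      have h7 := mul_le_mul_of_nonneg_left (hxQ i) (hs i).le
      have h8 : s i = b i - ⟪a i, o⟫ := rfl
      nlinarith
    have hdet : (Q.comp A).det = Q.det * A.det := LinearMap.det_comp _ _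
    have h7 := h5 o' (Q.comp A) hfeas (by rw [hdet]; positivity)
    have h8 := (hval n t x o' hss hlt h1).2
    rw [hdet, Real.log_mul hQ.ne' hA0] at h7
    linarith [hval0.2]
  · intro n' t' hpos'
    have hpos : 0 < (gm (fun _ => 1) (fun j => a (t' j))).det := by
      apply gm_pos_of (fun j => s (t' j)) (fun j => hs (t' j))
      have e := gx_eq (fun j => s (t' j)) (fun j => s (t' j))
        (fun j => a (t' j)) (fun j => u (t' j)) A (fun j => rfl) 0
        (fun j => by rw [inner_zero_right, sub_zero, mul_one])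
      rw [gx_zero] at e
      rw [e] at hpos'
      exact pos_of_mul_pos_right (a := A.det ^ 2) hpos' (by positivity)
    obtain ⟨o', A', g1, g2, g3, g4⟩ := h6 n' t' hpos
    set Ae := A.toContinuousLinearEquivOfDetNeZero hA0 with hAe
    have hAeA : ∀ y, Ae y = A y := fun y => rfl
    set Ai : EuclideanSpace ℝ (Fin d) →L[ℝ] EuclideanSpace ℝ (Fin d) :=
      (Ae.symm : EuclideanSpace ℝ (Fin d) →L[ℝ] EuclideanSpace ℝ (Fin d)) with hAi
    have hAiA : ∀ y, Ai (A y) = y := fun y => Ae.symm_apply_apply y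
    set x : EuclideanSpace ℝ (Fin d) := ContinuousLinearMap.adjoint Ai (o' - o) with hx
    have hui : ∀ i, Ai (u i) = (s i)⁻¹ • a i := by
      intro i
      rw [hudef]; dsimp only
      rw [map_smul, hAiA]
    have hin : ∀ i, ⟪u i, x⟫ = (s i)⁻¹ * (⟪a i, o'⟫ - ⟪a i, o⟫) := by
      intro i
      rw [hx, ContinuousLinearMap.adjoint_inner_right, hui, real_inner_smul_left, inner_sub_right]
    have hss : ∀ i, b i - ⟪a i, o'⟫ = s i * (1 - ⟪u i, x⟫) := by
      intro i
      have h7 := (hs i).ne'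
      rw [hin, mul_sub, ← mul_assoc, mul_inv_cancel₀ h7, hsdef]
      dsimp only; ring
    have hlt : ∀ i, ⟪u i, x⟫ < 1 := by
      intro i
      have h7 := hss i
      have h8 : 0 < s i * (1 - ⟪u i, x⟫) := by rw [← h7]; linarith [g2 i]
      have h9 := pos_of_mul_pos_right h8 (hs i).le
      linarith
    have hdet1 : Ai.det * A.det = 1 := by
      have h7 : (Ai.comp A).det = Ai.det * A.det := LinearMap.det_comp _ _
      rw [← h7]
      have h8 : Ai.comp A = ContinuousLinearMap.id ℝ _ := by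
        ext1 y; exact hAiA y
      rw [h8]
      exact LinearMap.det_id
    have hAi0 : 0 < Ai.det := by
      by_contra hc
      push Not at hc
      nlinarith
    have hdet : (A'.comp Ai).det = A'.det * Ai.det := LinearMap.det_comp _ _
    have hlog : Real.log Ai.det + Real.log A.det = 0 := by
      rw [← Real.log_mul hAi0.ne' hA0, hdet1, Real.log_one]
    refine ⟨x, A'.comp Ai, ?_, hlt, by rw [hdet]; positivity, ?_⟩
    · intro i
      rw [ContinuousLinearMap.comp_apply, hui, map_smul, norm_smul, hin, norm_inv,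
        Real.norm_eq_abs, abs_of_pos (hs i), ← mul_add, inv_mul_le_iff₀ (hs i), mul_one]
      have h7 := g1 i
      have h8 : s i = b i - ⟪a i, o⟫ := rfl
      linarith
    · have h8 := (hval n' t' x o' hss hlt hpos).2
      rw [hdet, Real.log_mul g3.ne' hAi0.ne', h8]
      linarith [hval0.2]

end Pool.Agent.Helper52.QN
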